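import Pool.Agent.P.MP_2f98db_ag.Transport

/-!
MP_2f98db_ag, Q1: for generic `u` the map `ψ : M_L(u) → M^hyp_L(u)` is an isomorphism of
`D_Z`-modules. All definitions are in `Pool/Agent/P/MP_2f98db_ag/Defs.lean`. The field `K` is
any field of fractions of `ℂ[t, z]`, that is `ℂ(t, z)`.

The action `ρ` of `D_Z` on coefficients is fixed by its values on the generators. It preserves
`Ω^p` and commutes with `∇_ω`, so `H^d(Ω^•, ∇_ω)` is a `D_Z`-module, and `ψ` is induced by
`P ↦ P • [f^(d+1) Ω(t)]`. The last two clauses say that this map `D_Z → H^d` has kernel exactly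
`H_L(u)` and is onto, that is, `ψ` is a well defined isomorphism. The flag `hor` covers both
readings of `Ω^•_{X/Z}`: `hor = false` is the wording of the problem file (all forms with
coefficients homogeneous of degree `-p`), `hor = true` keeps the forms that descend to `ℙ^d`.
-/

open MvPolynomial Pool.Agent.P.MP_2f98db_ag

namespace Pool.Agent.Results.MP_2f98db_ag.EulerIso

theorem result (d n : ℕ) (_hdn : d < n) (A : Matrix (Fin (d + 1)) (Fin (n + 1)) ℂ)
    (hrank : A.rank = d + 1) (hcol : ∀ j, ∃ i, A i j ≠ 0)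
    (K : Type) [Field K] [Algebra (Pol d n) K] [IsFractionRing (Pol d n) K] [Algebra ℂ K]
    [IsScalarTower ℂ (Pol d n) K] :
    ∃ Z : ℕ → Ideal (MvPolynomial (Fin (n + 1)) ℂ),
      (∀ k, zeroLocus ℂ (Z k) ≠ Set.univ) ∧
      ∀ u : Fin (n + 1) → ℂ, (∀ k, u ∉ zeroLocus ℂ (Z k)) → ∀ hor : Bool,
        ∃ ρ : Weyl n →ₐ[ℂ] Module.End ℂ K,
          (∀ j η, act ρ (zOp j) η = fun I : Finset (Fin (d + 1)) => zc d K j * η I) ∧
          (∀ j η, act ρ (dOp j) η = fun I : Finset (Fin (d + 1)) =>
            dz d j (η I) - (sPar d u + (d + 1)) • (dz d j (fn K A) / fn K A * η I)) ∧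
          (∀ P p η, InOm A hor p η → InOm A hor p (act ρ P η)) ∧
          (∀ P η, conn A u (act ρ P η) = act ρ P (conn A u η)) ∧
          (InOm A hor d (gen K A) ∧ conn A u (gen K A) = 0) ∧
          (∀ P, (∃ β, InOm A hor (d - 1) β ∧ conn A u β = act ρ P (gen K A)) ↔
            P ∈ hyperIdeal A u) ∧
          (∀ η, InOm A hor d η → conn A u η = 0 →
            ∃ P β, InOm A hor (d - 1) β ∧ η = act ρ P (gen K A) + conn A u β) := by
  obtain ⟨Z, hZ, h⟩ := main A hrank hcol
  exact ⟨Z, hZ, fun u hu hor => transport K A u hor (h u hu hor)⟩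

end Pool.Agent.Results.MP_2f98db_ag.EulerIso
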